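import Pool.Agent.H417_pse.Fs

/-!
# The `3x+d` maps: finite sets met by the orbits of almost all integers `±⌊n ^ c⌋`, uniformly in `d`

Let `1 < c < 101/100`. Q1 asks for a finite set which all orbits of `T_d` meet. For an arbitrary set `F` of
integers `z` with `|z| + |d| ≤ X ^ (3/10)` the number of the `n ≤ X` for which the orbit of `⌊n ^ c⌋` (or of
`-⌊n ^ c⌋`) meets `F` is determined up to `K X ^ (1 - 1/4000)` by the integers of this sign whose orbits meet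
`F`; `K` depends only on `c`. For `d` prime to 3, for all but `C X (|d| / y) ^ κ + C X ^ (1 - 1/4000)` of the
`n ≤ X` these orbits meet `[-y, y]`, so the finite sets `F_d = [-A |d|, A |d|]` are met by the orbits of all
but `ε X` of the integers `±⌊n ^ c⌋`, `n ≤ X`.

Author: helper417. Uses the dispersion method of Pool/Agent/Y965/PL for the maps `3 x + d`
(Pool/Agent/H417_psd, Pool/Agent/H417_pse), and the bound for all integers of Pool/Agent/W36.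
-/

set_option autoImplicit false

namespace Pool.Agent.Results.MP_d0d59f_nt.PiatetskiShapiroFiniteSets

open Filter Topology

/-- the `3x+d` map on the integers -/
def T (d x : ℤ) : ℤ := if x % 2 = 0 then x / 2 else (3 * x + d) / 2

/-- the integers whose orbits under the `3x+d` map meet `F` -/
def Meets (d : ℤ) (F : Set ℤ) : Set ℤ := {x | ∃ k : ℕ, (T d)^[k] x ∈ F}

/-- the number of the `n ≤ X` with `s ⌊n ^ c⌋ ∈ S` -/
noncomputable def Along (c : ℝ) (s : ℤ) (S : Set ℤ) (X : ℕ) : ℕ :=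
  {n : ℕ | 1 ≤ n ∧ n ≤ X ∧ s * ⌊(n : ℝ) ^ c⌋ ∈ S}.ncard

/-- the number of the `n ≤ X` for which the orbit of `s ⌊n ^ c⌋` has no element in `[-y, y]` -/
noncomputable def Avoiding (c : ℝ) (d s : ℤ) (y : ℝ) (X : ℕ) : ℕ :=
  {n : ℕ | 1 ≤ n ∧ n ≤ X ∧ ∀ k : ℕ, y < |(((T d)^[k] (s * ⌊(n : ℝ) ^ c⌋) : ℤ) : ℝ)|}.ncard

open Classical in
/-- Let `1 < c < 101/100`.

(1) There is a `K` such that for all odd `d`, both signs `s`, all `X ≥ 1` with `|d| ≤ X ^ (1/2000)` and all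
sets `F` of integers `z` with `|z| + |d| ≤ X ^ (3/10)`: the number of the `n ≤ X` for which the orbit of
`s ⌊n ^ c⌋` meets `F` is, up to `K X ^ (1 - 1/4000)`, the sum of `(m + 1) ^ (1/c) - m ^ (1/c)` over the
`m ≤ X ^ c` for which the orbit of `s m` meets `F`.
(2) For every `κ` with `0 < κ < 1 - H(log 2 / log 3) = 0.05004...` (`H` the binary entropy in bits) there is a
`C` such that for all odd `d` prime to `3`, both signs `s`, all `X ≥ 1` with `|d| ≤ X ^ (1/2000)` and all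
`y > 0` with `y + |d| ≤ X ^ (3/10)`: for at most `C (X (|d| / y) ^ κ + X ^ (1 - 1/4000))` of the `n ≤ X` the
orbit of `s ⌊n ^ c⌋` has no element in `[-y, y]`.
(3) For every `ε > 0` there are `A` and `B` such that for all odd `d` prime to `3`, both signs `s` and all
`X ≥ B |d| ^ 2000`: for at most `ε X` of the `n ≤ X` the orbit of `s ⌊n ^ c⌋` has no element in
`[-A |d|, A |d|]`. -/
theorem result {c : ℝ} (hc : 1 < c) (hc' : c < 101 / 100) :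
    (∃ K : ℝ, ∀ d : ℤ, Odd d → ∀ s : ℤ, (s = 1 ∨ s = -1) → ∀ X : ℕ, 1 ≤ X →
      |(d : ℝ)| ≤ (X : ℝ) ^ (1 / 2000 : ℝ) → ∀ F : Set ℤ,
      (∀ z ∈ F, |(z : ℝ)| + |(d : ℝ)| ≤ (X : ℝ) ^ (3 / 10 : ℝ)) →
      |(Along c s (Meets d F) X : ℝ) -
        ∑ m ∈ (Finset.Icc 1 ⌊(X : ℝ) ^ c⌋₊).filter (fun m : ℕ => s * (m : ℤ) ∈ Meets d F),
          (((m : ℝ) + 1) ^ (1 / c) - (m : ℝ) ^ (1 / c))| ≤ K * (X : ℝ) ^ (1 - 1 / 4000 : ℝ)) ∧
    (∀ κ : ℝ, 0 < κ → κ < 1 - Real.binEntropy (Real.log 2 / Real.log 3) / Real.log 2 →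
      ∃ C : ℝ, ∀ d : ℤ, Odd d → ¬ (3 : ℤ) ∣ d → ∀ s : ℤ, (s = 1 ∨ s = -1) → ∀ X : ℕ, 1 ≤ X →
        |(d : ℝ)| ≤ (X : ℝ) ^ (1 / 2000 : ℝ) → ∀ y : ℝ, 0 < y → y + |(d : ℝ)| ≤ (X : ℝ) ^ (3 / 10 : ℝ) →
        (Avoiding c d s y X : ℝ) ≤ C * ((X : ℝ) * (|(d : ℝ)| / y) ^ κ + (X : ℝ) ^ (1 - 1 / 4000 : ℝ))) ∧
    (∀ ε : ℝ, 0 < ε → ∃ A B : ℝ, 0 < A ∧ 0 < B ∧ ∀ d : ℤ, Odd d → ¬ (3 : ℤ) ∣ d →
      ∀ s : ℤ, (s = 1 ∨ s = -1) → ∀ X : ℕ, B * |(d : ℝ)| ^ 2000 ≤ X →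
        (Avoiding c d s (A * |(d : ℝ)|) X : ℝ) ≤ ε * X) := by
  refine ⟨?_, ?_, ?_⟩
  · obtain ⟨K, _, h⟩ := Pool.Agent.H417_pse.hit_transfer hc hc'
    exact ⟨K, fun d hd s hs X hX hdX F hF => h d hd s hs X hX hdX F hF (Meets d F) (Or.inl rfl)⟩
  · intro κ hκ0 hκ
    obtain ⟨C, _, h⟩ := Pool.Agent.H417_pse.low hc hc' hκ0 hκ
    exact ⟨C, fun d hd hd3 s hs X hX hdX y hy hyX => h d hd hd3 s hs X hX hdX y hy hyX⟩
  · intro ε hε
    obtain ⟨A, B, hA, hB, h⟩ := Pool.Agent.H417_pse.fin_sets hc hc' hε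
    exact ⟨A, B, hA, hB, fun d hd hd3 s hs X hX => h d hd hd3 s hs X hX⟩

end Pool.Agent.Results.MP_d0d59f_nt.PiatetskiShapiroFiniteSets
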