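import Pool.Agent.H417_psd.Tr

/-!
# The `3x+d` maps along the integers `±⌊n ^ c⌋`, uniformly in `d`

Let `1 < c < 101/100`. For every odd `d` and every set `S` invariant under the `3x+d` map, the number of the
`n ≤ X` with `⌊n ^ c⌋ ∈ S` (or `-⌊n ^ c⌋ ∈ S`) is, up to `K X ^ (1 - 1/4000)`, the sum of
`(m + 1) ^ (1/c) - m ^ (1/c)` over the `m ≤ X ^ c` in `S` (in `-S`), for all `X ≥ |d| ^ 2000`, where `K`
depends only on `c`. So for `d` prime to 3 the basins of all cycles and the set of the divergent orbits have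
the same densities along the sequences as among all positive (negative) integers, and the assertion of Q1
for `d` holds iff it holds for almost all the integers `⌊n ^ c⌋` and `-⌊n ^ c⌋`.

Author: helper417. Uses the dispersion method of Pool/Agent/Y965/PL for the maps `3 x + d`
(Pool/Agent/H417_psd), and the natural densities of Pool/Agent/H499R2.
-/

set_option autoImplicit false

namespace Pool.Agent.Results.MP_d0d59f_nt.PiatetskiShapiroUniformInD

open Filter Topology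

/-- the `3x+d` map on the integers -/
def T (d x : ℤ) : ℤ := if x % 2 = 0 then x / 2 else (3 * x + d) / 2

/-- `S` is invariant: it contains `x` iff it contains `T d x`. -/
def Invariant (d : ℤ) (S : Set ℤ) : Prop := ∀ x : ℤ, x ∈ S ↔ T d x ∈ S

/-- the number of the `n ≤ X` with `s ⌊n ^ c⌋ ∈ S` -/
noncomputable def Along (c : ℝ) (s : ℤ) (S : Set ℤ) (X : ℕ) : ℕ :=
  {n : ℕ | 1 ≤ n ∧ n ≤ X ∧ s * ⌊(n : ℝ) ^ c⌋ ∈ S}.ncard

/-- Among the integers `s n`, `n ≥ 1`, those in `S` have natural density `δ`. -/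
def HasDensity (s : ℤ) (S : Set ℤ) (δ : ℝ) : Prop :=
  Tendsto (fun X : ℕ => ({n : ℕ | 1 ≤ n ∧ n ≤ X ∧ s * (n : ℤ) ∈ S}.ncard : ℝ) / X) atTop (𝓝 δ)

/-- Among the terms of the sequence `s ⌊n ^ c⌋`, those in `S` have density `δ`. -/
def HasDensityAlong (c : ℝ) (s : ℤ) (S : Set ℤ) (δ : ℝ) : Prop :=
  Tendsto (fun X : ℕ => (Along c s S X : ℝ) / X) atTop (𝓝 δ)

open Classical in
/-- The number of the `n ≤ X` with `s ⌊n ^ c⌋ ∈ S` is, up to `K X ^ (1 - 1/4000)`, the sum of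
`(m + 1) ^ (1/c) - m ^ (1/c)` over the `m ≤ X ^ c` with `s m ∈ S`. -/
def Transfer (c K : ℝ) (s : ℤ) (S : Set ℤ) (X : ℕ) : Prop :=
  |(Along c s S X : ℝ) - ∑ m ∈ (Finset.Icc 1 ⌊(X : ℝ) ^ c⌋₊).filter (fun m : ℕ => s * (m : ℤ) ∈ S),
    (((m : ℝ) + 1) ^ (1 / c) - (m : ℝ) ^ (1 / c))| ≤ K * (X : ℝ) ^ (1 - 1 / 4000 : ℝ)

/-- The assertion of Q1 for `d`: there is a finite set of integers which every orbit meets. -/
def Assertion (d : ℤ) : Prop := ∃ F : Finset ℤ, ∀ x : ℤ, ∃ k : ℕ, (T d)^[k] x ∈ F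

theorem along_eq (c : ℝ) (s : ℤ) (S : Set ℤ) (X : ℕ) [DecidablePred fun n : ℕ => s * ⌊(n : ℝ) ^ c⌋ ∈ S] :
    Along c s S X = ((Finset.Icc 1 X).filter fun n : ℕ => s * ⌊(n : ℝ) ^ c⌋ ∈ S).card := by
  unfold Along
  rw [← Set.ncard_coe_finset]
  congr 1
  ext n
  simp only [Set.mem_ofPred_eq, Finset.coe_filter, Finset.mem_Icc, and_assoc]

open Pool.Agent.Y965.PL in
theorem along_of {c : ℝ} {s : ℤ} {S : Set ℤ} {δ : ℝ}
    (h : MnS (ps c) (ind (fun n : ℕ => s * (n : ℤ) ∈ S)) δ) : HasDensityAlong c s S δ := by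
  classical
  unfold MnS at h
  unfold HasDensityAlong
  refine h.congr fun X => ?_
  congr 1
  rw [along_eq, ← Finset.sum_boole]
  apply Finset.sum_congr rfl
  intro n _
  rw [Pool.Agent.H417_psd.floor_eq]
  unfold ind ps
  by_cases hx : s * ((⌊(n : ℝ) ^ c⌋₊ : ℕ) : ℤ) ∈ S
  · rw [if_pos hx]
  · rw [if_neg hx]

theorem along_compl (c : ℝ) (s : ℤ) (S : Set ℤ) (X : ℕ) : Along c s S X + Along c s Sᶜ X = X := by
  classical
  rw [along_eq, along_eq]
  have h := Finset.card_filter_add_card_filter_not (s := Finset.Icc 1 X)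
    (fun n : ℕ => s * ⌊(n : ℝ) ^ c⌋ ∈ S)
  rw [Nat.card_Icc, Nat.add_sub_cancel] at h
  exact h

theorem along_full {c : ℝ} (hc : 1 < c) {s : ℤ} (hs : s = 1 ∨ s = -1) {S : Set ℤ} (h : ∀ x : ℤ, x ≠ 0 → x ∈ S)
    (X : ℕ) : Along c s S X = X := by
  classical
  rw [along_eq, Finset.filter_true_of_mem, Nat.card_Icc, Nat.add_sub_cancel]
  intro n hn
  rw [Finset.mem_Icc] at hn
  apply h
  have h1 : (1 : ℤ) ≤ ⌊(n : ℝ) ^ c⌋ := by
    rw [Int.le_floor]
    push_cast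
    exact Real.one_le_rpow (by exact_mod_cast hn.1) (by linarith)
  rcases hs with rfl | rfl <;> omega

theorem inv_iter {d : ℤ} {S : Set ℤ} (h : Invariant d S) (k : ℕ) (x : ℤ) : x ∈ S ↔ (T d)^[k] x ∈ S :=
  Pool.Agent.H499R2.ND.inv_iter (show Pool.Agent.H499R2.ND.Inv d S from h) k x

/-- an orbit which enters a finite closed set -/
theorem basin_inv {d : ℤ} {F : Finset ℤ} (hF : ∀ x ∈ F, T d x ∈ F) :
    Invariant d {x : ℤ | ∃ k : ℕ, (T d)^[k] x ∈ F} := by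
  intro x
  constructor
  · rintro ⟨k, hk⟩
    rcases k with _ | k
    · exact ⟨0, hF _ hk⟩
    · exact ⟨k, hk⟩
  · rintro ⟨k, hk⟩
    exact ⟨k + 1, hk⟩

theorem full_of {c : ℝ} {d : ℤ} (hd : Odd d) (hd3 : ¬ (3 : ℤ) ∣ d)
    (hmain : ∀ s : ℤ, (s = 1 ∨ s = -1) → ∀ S : Set ℤ, Invariant d S → ∃ δ : ℝ, HasDensity s S δ ∧
      HasDensityAlong c s S δ ∧ ∀ a ∈ S, 0 < s * a → ¬ (3 : ℤ) ∣ a → 0 < δ)
    {S : Set ℤ} (hS : Invariant d S) (h : ∀ s : ℤ, (s = 1 ∨ s = -1) → HasDensityAlong c s S 1)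
    {x : ℤ} (hx : x ≠ 0) : x ∈ S := by
  obtain ⟨k, hk⟩ := Pool.Agent.H499R2.ND.exists_prime3' hd hd3 x.natAbs x hx le_rfl
  rw [inv_iter hS k x]
  have hk' : ¬ (3 : ℤ) ∣ (T d)^[k] x := hk
  set b := (T d)^[k] x with hb
  by_contra hcon
  have hb0 : b ≠ 0 := by
    rintro h0
    exact hk' (by rw [h0]; exact dvd_zero 3)
  obtain ⟨s, hs, hsb⟩ : ∃ s : ℤ, (s = 1 ∨ s = -1) ∧ 0 < s * b := by
    rcases lt_or_gt_of_ne hb0 with h1 | h1
    · exact ⟨-1, Or.inr rfl, by omega⟩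
    · exact ⟨1, Or.inl rfl, by omega⟩
  have hSc : Invariant d Sᶜ := fun x => not_congr (hS x)
  obtain ⟨δ, _, h2, h3⟩ := hmain s hs Sᶜ hSc
  have h4 : 0 < δ := h3 b hcon hsb hk'
  have h5 : Tendsto (fun X : ℕ => (Along c s S X : ℝ) / X + (Along c s Sᶜ X : ℝ) / X) atTop (𝓝 (1 + δ)) :=
    (h s hs).add h2
  have h6 : Tendsto (fun X : ℕ => (Along c s S X : ℝ) / X + (Along c s Sᶜ X : ℝ) / X) atTop (𝓝 1) := by
    refine tendsto_const_nhds.congr' ?_
    filter_upwards [eventually_ge_atTop 1] with X hX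
    have hX0 : (X : ℝ) ≠ 0 := by positivity
    rw [← add_div, ← Nat.cast_add, along_compl, div_self hX0]
  have h7 := tendsto_nhds_unique h5 h6
  linarith

theorem dens_full {c : ℝ} (hc : 1 < c) {S : Set ℤ} (h : ∀ x : ℤ, x ≠ 0 → x ∈ S) {s : ℤ} (hs : s = 1 ∨ s = -1) :
    HasDensityAlong c s S 1 := by
  unfold HasDensityAlong
  refine tendsto_const_nhds.congr' ?_
  filter_upwards [eventually_ge_atTop 1] with X hX
  have hX0 : (X : ℝ) ≠ 0 := by positivity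
  rw [along_full hc hs h, div_self hX0]

/-- a finite set which every orbit meets can be enlarged to a closed one -/
theorem closed_of {d : ℤ} {F : Finset ℤ} (h : ∀ x : ℤ, ∃ k : ℕ, (T d)^[k] x ∈ F) :
    ∃ F' : Finset ℤ, (∀ x ∈ F', T d x ∈ F') ∧ ∀ x : ℤ, ∃ k : ℕ, (T d)^[k] x ∈ F' := by
  classical
  choose t ht using h
  set J : ℕ := F.sup (fun f => t (T d f) + 1) with hJ
  refine ⟨(F ×ˢ Finset.range (J + 1)).image (fun p => (T d)^[p.2] p.1), ?_, ?_⟩
  · intro x hx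
    rw [Finset.mem_image] at hx ⊢
    obtain ⟨⟨f, j⟩, hp, rfl⟩ := hx
    rw [Finset.mem_product, Finset.mem_range] at hp
    obtain ⟨hf, hj⟩ := hp
    dsimp only at hf hj ⊢
    rcases lt_or_ge (j + 1) (J + 1) with h1 | h1
    · exact ⟨(f, j + 1), Finset.mem_product.2 ⟨hf, Finset.mem_range.2 h1⟩, Function.iterate_succ_apply' _ _ _⟩
    · have hjJ : j = J := by omega
      have h2 : t (T d f) + 1 ≤ J := Finset.le_sup (f := fun f => t (T d f) + 1) hf
      refine ⟨((T d)^[t (T d f)] (T d f), J + 1 - (t (T d f) + 1)),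
        Finset.mem_product.2 ⟨ht _, Finset.mem_range.2 (by dsimp only; omega)⟩, ?_⟩
      dsimp only
      rw [← Function.iterate_succ_apply, ← Function.iterate_add_apply,
        ← Function.iterate_succ_apply' (T d) j f, hjJ]
      have e : J + 1 - (t (T d f) + 1) + Nat.succ (t (T d f)) = Nat.succ J := by omega
      rw [e]
  · intro x
    refine ⟨t x, ?_⟩
    rw [Finset.mem_image]
    exact ⟨((T d)^[t x] x, 0), Finset.mem_product.2 ⟨ht x, Finset.mem_range.2 (Nat.succ_pos J)⟩, rfl⟩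

/-- THE `3x+d` MAPS ALONG `±⌊n ^ c⌋`. Let `1 < c < 101/100`.

(1) There is a `K`, depending only on `c`, such that the transfer inequality holds for all odd `d`, for both
signs `s`, for all sets `S` invariant under the `3x+d` map and for all `X ≥ 1` with `|d| ≤ X ^ (1/2000)`.

Let `d` be odd and not divisible by 3.
(2) For both signs `s` every invariant set has the same density among the integers of sign `s` and among the
`s ⌊n ^ c⌋`; this density is positive if the set contains an integer of sign `s` which is not divisible by 3.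
(3) An invariant set contains all nonzero integers iff it contains almost all the integers `⌊n ^ c⌋` and
almost all the integers `-⌊n ^ c⌋`.
(4) The assertion of Q1 for `d` holds iff there is a finite set `F` with `T d F ⊆ F` such that the orbits of
almost all the integers `⌊n ^ c⌋` and of almost all the integers `-⌊n ^ c⌋` enter `F`. -/
theorem result {c : ℝ} (hc : 1 < c) (hc' : c < 101 / 100) :
    (∃ K : ℝ, ∀ d : ℤ, Odd d → ∀ s : ℤ, (s = 1 ∨ s = -1) → ∀ S : Set ℤ, Invariant d S →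
      ∀ X : ℕ, 1 ≤ X → |(d : ℝ)| ≤ (X : ℝ) ^ (1 / 2000 : ℝ) → Transfer c K s S X) ∧
    (∀ d : ℤ, Odd d → ¬ (3 : ℤ) ∣ d →
      (∀ s : ℤ, (s = 1 ∨ s = -1) → ∀ S : Set ℤ, Invariant d S → ∃ δ : ℝ, HasDensity s S δ ∧
        HasDensityAlong c s S δ ∧ ∀ a ∈ S, 0 < s * a → ¬ (3 : ℤ) ∣ a → 0 < δ) ∧
      (∀ S : Set ℤ, Invariant d S →
        ((∀ x : ℤ, x ≠ 0 → x ∈ S) ↔ ∀ s : ℤ, (s = 1 ∨ s = -1) → HasDensityAlong c s S 1)) ∧
      (Assertion d ↔ ∃ F : Finset ℤ, (∀ x ∈ F, T d x ∈ F) ∧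
        ∀ s : ℤ, (s = 1 ∨ s = -1) → HasDensityAlong c s {x : ℤ | ∃ k : ℕ, (T d)^[k] x ∈ F} 1)) := by
  refine ⟨?_, fun d hd hd3 => ?_⟩
  · obtain ⟨K, _, h⟩ := Pool.Agent.H417_psd.inv_transfer hc hc'
    exact ⟨K, fun d hd s hs S hS X hX hdX => h d hd s hs S hS X hX hdX⟩
  have hmain : ∀ s : ℤ, (s = 1 ∨ s = -1) → ∀ S : Set ℤ, Invariant d S → ∃ δ : ℝ, HasDensity s S δ ∧
      HasDensityAlong c s S δ ∧ ∀ a ∈ S, 0 < s * a → ¬ (3 : ℤ) ∣ a → 0 < δ := by
    intro s hs S hS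
    obtain ⟨l, h1, h2, h3⟩ := Pool.Agent.H417_psd.seq_side hc hc' hd hd3 hs
      (show Pool.Agent.H499R2.ND.Inv d S from hS)
    exact ⟨l, h1, along_of h2, h3⟩
  refine ⟨hmain, fun S hS => ⟨fun h s hs => dens_full hc h hs, fun h x hx => full_of hd hd3 hmain hS h hx⟩, ?_, ?_⟩
  · rintro ⟨F, hF⟩
    obtain ⟨F', h1, h2⟩ := closed_of hF
    exact ⟨F', h1, fun s hs => dens_full hc (fun x _ => h2 x) hs⟩
  · rintro ⟨F, h1, h2⟩
    refine ⟨insert 0 F, fun x => ?_⟩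
    by_cases hx : x = 0
    · exact ⟨0, by rw [hx]; exact Finset.mem_insert_self _ _⟩
    · obtain ⟨k, hk⟩ := full_of hd hd3 hmain (basin_inv h1) h2 hx
      exact ⟨k, Finset.mem_insert_of_mem hk⟩

end Pool.Agent.Results.MP_d0d59f_nt.PiatetskiShapiroUniformInD
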