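import Mathlib
import Pool.Agent.H977.PW.Unif

set_option autoImplicit false

/-!
# The parts composed of given primes of the numbers `z - c` for the `3x+d` maps, uniformly in `d` and `c`

Let `S` be a finite set of primes, `[n]` the largest divisor of `n` composed of primes of `S`, and `δ > 0`.
There is ONE constant `K` such that for all odd `d` and all integers `c` the `3x+d` map `T_d` has the
following properties.

* If `|T_d^k(x)| ≥ (|d| + |c| + K)^K` for all `k < N`, then
  `∏_{k < N} [T_d^k(x) - c] ≤ |x|^K (∏_{k < N} |T_d^k(x)|)^δ`.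
* If `Z` is a cycle of `T_d` with `|z| ≥ (|d| + |c| + K)^K` for all `z ∈ Z`, then
  `∏_{z ∈ Z} [z - c] ≤ |P|^δ`, where `P` is the product of the odd elements of `Z`.

The products on the left are over all `k < N` and all `z ∈ Z` if `c` is not a periodic point of `T_d`; if it
is, then they are over those for which `T_d^k(x)` resp. `z` is not congruent to `c` mod `2^n` for any `n ≥ 1`
with `T_d^n(c) = c`; for `c = 0` these are the odd ones.

Proof: let `i ≤ γ log |x|`, and let `z_i` be the terms of the trajectory of `x`.  The numbers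
`3^(K-k_i) 2^i (z_i - c)` are different integers near to `3^K x`: if two of them, with `i < j`, are
equal, then `c` is periodic with period `j - i` and `z_i ≡ c mod 2^(j-i)`.  By Ridout's theorem with
moving targets (from the subspace theorem) the product of the `[z_i - c]` over any `m` of these `i` is at
most `|x|^2`, if `|x|` is larger than a power of `|d| + |c|`.
-/

namespace Pool.Agent.Results.MP_d0d59f_nt.SmallSPartsUniform

open Finset

/-- The `3x+d` map `T_d`. -/
def T (d x : ℤ) : ℤ := if x % 2 = 0 then x / 2 else (3 * x + d) / 2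

/-- `Z` is a cycle (periodic orbit) of `T_d`. -/
def IsCycle (d : ℤ) (Z : Finset ℤ) : Prop :=
  ∃ x : ℤ, ∃ p : ℕ, 1 ≤ p ∧ (T d)^[p] x = x ∧ Z = (range p).image fun i => (T d)^[i] x

/-- The part of `x` composed of the primes in `S`. -/
def sPart (S : Finset ℕ) (x : ℤ) : ℕ := ∏ p ∈ S, p ^ (x.natAbs.factorization p)

/-- If `c` is periodic under `T_d` with period `n`, then `z` and `c` are different modulo `2^n`. -/
def Away (d c z : ℤ) : Prop :=
  ∀ n : ℕ, 1 ≤ n → (T d)^[n] c = c → ¬ ((2 : ℤ) ^ n ∣ z - c)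

/-- The product of the odd elements of `Z`. -/
def oddProd (Z : Finset ℤ) : ℤ := ∏ z ∈ Z.filter (fun z => z % 2 = 1), z

lemma T_eq (d : ℤ) : T d = Pool.Agent.H977.SP.G 3 d 1 := by
  funext x
  unfold T Pool.Agent.H977.SP.G
  rw [pow_one]

lemma abs_oddProd (Z : Finset ℤ) :
    |(oddProd Z : ℝ)| = ∏ z ∈ Z.filter (fun z => z % 2 = 1), |(z : ℝ)| := by
  unfold oddProd
  push_cast
  rw [Finset.abs_prod]

lemma threshold (K K₀ M : ℕ) (h1 : K₀ ≤ K) (h2 : M ≤ K) (h3 : 1 ≤ K) (d c y : ℤ)
    (h : (|d| + |c| + K) ^ K ≤ |y|) : (M : ℤ) ≤ |y| ∧ (|d| + |c|) ^ K₀ ≤ |y| := by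
  have hd := abs_nonneg d
  have hc := abs_nonneg c
  have hK : (1 : ℤ) ≤ K := by exact_mod_cast h3
  have hM : (M : ℤ) ≤ K := by exact_mod_cast h2
  constructor
  · have h4 : |d| + |c| + K ≤ (|d| + |c| + K) ^ K := le_self_pow₀ (by linarith) (by omega)
    linarith
  · calc (|d| + |c|) ^ K₀ ≤ (|d| + |c| + K) ^ K₀ := pow_le_pow_left₀ (by linarith) (by linarith) _
      _ ≤ (|d| + |c| + K) ^ K := pow_le_pow_right₀ (by linarith) h1
      _ ≤ |y| := h

open Classical in
/-- For every finite set `S` and every `δ > 0` there is `K` such that for all odd `d` and all `c`: (1) if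
`|T_d^k(x)| ≥ (|d| + |c| + K)^K` for all `k < N` (and `N ≥ 1`), then the product of the `[T_d^k(x) - c]` over
the `k < N` with `Away d c (T_d^k(x))` is at most `|x|^K` times the `δ`-th power of the product of the
`|T_d^k(x)|`, `k < N`; (2) if `Z` is a cycle of `T_d` with `|z| ≥ (|d| + |c| + K)^K` for all `z ∈ Z`, then the
product of the `[z - c]` over the `z ∈ Z` with `Away d c z` is at most `|P|^δ`, `P` the product of the odd
elements of `Z`. -/
theorem result (S : Finset ℕ) (δ : ℝ) (hδ : 0 < δ) :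
    ∃ K : ℕ, ∀ d c : ℤ, d % 2 = 1 →
      (∀ (x : ℤ) (N : ℕ), 1 ≤ N → (∀ k < N, (|d| + |c| + K) ^ K ≤ |(T d)^[k] x|) →
        ∏ k ∈ (range N).filter (fun k => Away d c ((T d)^[k] x)),
          (sPart S ((T d)^[k] x - c) : ℝ) ≤
            |(x : ℝ)| ^ K * (∏ k ∈ range N, |(((T d)^[k] x : ℤ) : ℝ)|) ^ δ) ∧
      (∀ Z : Finset ℤ, IsCycle d Z → (∀ z ∈ Z, (|d| + |c| + K) ^ K ≤ |z|) →
        ∏ z ∈ Z.filter (Away d c), (sPart S (z - c) : ℝ) ≤ |(oddProd Z : ℝ)| ^ δ) := by
  obtain ⟨K1, M1, C1, hK1, hM1, h1⟩ := Pool.Agent.H977.PW.finite_traj (a := 3) (by norm_num) S δ hδ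
  obtain ⟨K2, M2, hK2, hM2, h2⟩ := Pool.Agent.H977.PW.cycles_u (a := 3) (by norm_num) S δ hδ
  refine ⟨K1 + M1 + C1 + K2 + M2, ?_⟩
  set K := K1 + M1 + C1 + K2 + M2 with hK
  intro d c hd
  have haway : ∀ z, Away d c z ↔ Pool.Agent.H977.PW.Away 3 d c z := by
    intro z
    unfold Away
    rw [T_eq]
    exact Iff.rfl
  have hphic : ∀ z, Pool.Agent.H977.PW.phic 3 d S c z =
      if Away d c z then Real.log (sPart S (z - c)) else 0 := by
    intro z
    unfold Pool.Agent.H977.PW.phic
    by_cases h : Away d c z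
    · rw [if_pos h, if_pos ((haway z).1 h)]
      rfl
    · rw [if_neg h, if_neg (fun h' => h ((haway z).2 h'))]
  have hpos : ∀ z : ℤ, 0 < sPart S z := fun z => Pool.Agent.H977.PW.sPart_pos S z
  refine ⟨?_, ?_⟩
  · intro x N hN hbig
    have hbig1 : ∀ k < N, (M1 : ℤ) ≤ |(T d)^[k] x| ∧ (|d| + |c|) ^ K1 ≤ |(T d)^[k] x| :=
      fun k hk => threshold K K1 M1 (by omega) (by omega) (by omega) d c _ (hbig k hk)
    have hR : ∀ k < N, (1 : ℝ) ≤ |(((T d)^[k] x : ℤ) : ℝ)| := by
      intro k hk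
      have h3 := (hbig1 k hk).1
      have h4 : (3 : ℤ) ≤ M1 := by exact_mod_cast hM1
      rw [← Int.cast_abs]
      exact_mod_cast (by linarith : (1 : ℤ) ≤ |(T d)^[k] x|)
    have hx1 : (1 : ℝ) ≤ |(x : ℝ)| := hR 0 (by omega)
    have h3 := h1 d c hd x N (by rw [← T_eq]; exact hbig1)
    rw [← T_eq] at h3
    have h4 : ∑ k ∈ range N, Pool.Agent.H977.PW.phic 3 d S c ((T d)^[k] x) =
        ∑ k ∈ (range N).filter (fun k => Away d c ((T d)^[k] x)),
          Real.log (sPart S ((T d)^[k] x - c)) := by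
      rw [Finset.sum_filter]
      exact Finset.sum_congr rfl fun k _ => hphic _
    rw [h4] at h3
    have h5 : (C1 : ℝ) * Real.log |(x : ℝ)| ≤ K * Real.log |(x : ℝ)| := by
      apply mul_le_mul_of_nonneg_right _ (Real.log_nonneg hx1)
      exact_mod_cast (by omega : C1 ≤ K)
    have hp1 : 0 < ∏ k ∈ (range N).filter (fun k => Away d c ((T d)^[k] x)),
        (sPart S ((T d)^[k] x - c) : ℝ) :=
      Finset.prod_pos fun k _ => by exact_mod_cast hpos _
    have hp2 : 0 < ∏ k ∈ range N, |(((T d)^[k] x : ℤ) : ℝ)| :=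
      Finset.prod_pos fun k hk => by
        have := hR k (Finset.mem_range.1 hk)
        linarith
    have hp3 : 0 < |(x : ℝ)| ^ K := pow_pos (by linarith) K
    rw [← Real.log_le_log_iff hp1 (mul_pos hp3 (Real.rpow_pos_of_pos hp2 δ)),
      Real.log_mul hp3.ne' (Real.rpow_pos_of_pos hp2 δ).ne', Real.log_pow, Real.log_rpow hp2,
      Real.log_prod (fun k _ => by
        have := hpos ((T d)^[k] x - c)
        positivity),
      Real.log_prod (fun k hk => by
        have := hR k (Finset.mem_range.1 hk)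
        linarith)]
    linarith
  · intro Z hZ hbig
    have hZ' : Pool.Agent.H977.PW.IsCyc (Pool.Agent.H977.SP.G 3 d 1) Z := by
      unfold IsCycle at hZ
      rw [T_eq] at hZ
      exact hZ
    have hbig2 : ∀ z ∈ Z, (M2 : ℤ) ≤ |z| ∧ (|d| + |c|) ^ K2 ≤ |z| :=
      fun z hz => threshold K K2 M2 (by omega) (by omega) (by omega) d c _ (hbig z hz)
    have hR : ∀ z ∈ Z, (1 : ℝ) ≤ |(z : ℝ)| := by
      intro z hz
      have h3 := (hbig2 z hz).1
      have h4 : (3 : ℤ) ≤ M2 := by exact_mod_cast hM2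
      rw [← Int.cast_abs]
      exact_mod_cast (by linarith : (1 : ℤ) ≤ |z|)
    have h3 := h2 d c hd Z hZ' hbig2
    have h4 : ∑ z ∈ Z, Pool.Agent.H977.PW.phic 3 d S c z =
        ∑ z ∈ Z.filter (Away d c), Real.log (sPart S (z - c)) := by
      rw [Finset.sum_filter]
      exact Finset.sum_congr rfl fun z _ => hphic _
    rw [h4] at h3
    have hp1 : 0 < ∏ z ∈ Z.filter (Away d c), (sPart S (z - c) : ℝ) :=
      Finset.prod_pos fun z _ => by exact_mod_cast hpos _
    rw [abs_oddProd]
    have hp2 : 0 < ∏ z ∈ Z.filter (fun z => z % 2 = 1), |(z : ℝ)| :=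
      Finset.prod_pos fun z hz => by
        have := hR z (Finset.mem_filter.1 hz).1
        linarith
    rw [← Real.log_le_log_iff hp1 (Real.rpow_pos_of_pos hp2 δ), Real.log_rpow hp2,
      Real.log_prod (fun z _ => by
        have := hpos (z - c)
        positivity),
      Real.log_prod (fun z hz => by
        have := hR z (Finset.mem_filter.1 hz).1
        linarith)]
    exact h3

end Pool.Agent.Results.MP_d0d59f_nt.SmallSPartsUniform
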