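import Pool.Agent.H998_TU.Sign

/-!
# The `3x+d` maps: where the orbits of almost all integers enter an interval, uniformly in `d`

For every `ε > 0` there are `δ > 0` and `K` such that for all odd `d` prime to `3`, all `Z ≥ K |d|` and all
integers `N ≥ Z`:

1. If `A` is a set of integers with at most `δ Z` elements `x ≠ 0`, `|x| < Z`, then for all but at most
   `ε N` of the integers `x ≠ 0` with `|x| ≤ N` the orbit of `x` has an element of absolute value less
   than `Z`, and the first such element is not in `A`.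

So a property of almost all integers is a property of the first element in `(-Z, Z)` of the orbits of
almost all integers, as soon as `Z` is large compared with `|d|`. Consequences for the sets `F` of integers:

2. If at most `δ Z` of the integers `x ≠ 0` with `|x| < Z` have an orbit which avoids `F`, then at most
   `ε N` of the integers `x ≠ 0` with `|x| ≤ N` have an orbit which avoids `F`.
3. If all elements of `F` are smaller than `Z` in absolute value and at most `δ Z` of the integers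
   `x ≠ 0` with `|x| < Z` have an orbit which meets `F`, then at most `ε N` of the integers `x ≠ 0` with
   `|x| ≤ N` have an orbit which meets `F`.

So a candidate `F` for the finite set of the question can be tested, up to a set of integers of small
density, on an interval of length `O(|d|)`, and a few failures in this interval do no harm; and basins
(of cycles, or of other sets in the interval) which are small in the interval are small at all scales.

Method: Tao's method at the scales relative to `Z`, with the errors made independent of `d`.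
-/

set_option autoImplicit false

namespace Pool.Agent.Results.MP_d0d59f_nt.TransferUniformInD

/-- the `3x+d` map on the integers -/
def T (d x : ℤ) : ℤ := if x % 2 = 0 then x / 2 else (3 * x + d) / 2

/-- the orbit of `x` under the `3x+d` map meets `F` -/
def Meets (d : ℤ) (F : Set ℤ) (x : ℤ) : Prop := ∃ k : ℕ, (T d)^[k] x ∈ F

theorem fin_box (N : ℕ) (P : ℤ → Prop) : {x : ℤ | x ≠ 0 ∧ |x| ≤ N ∧ P x}.Finite := by
  apply (Set.finite_Icc (-(N : ℤ)) N).subset
  rintro x ⟨_, h, _⟩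
  rw [abs_le] at h
  exact h

theorem result (ε : ℝ) (hε : 0 < ε) : ∃ δ K : ℝ, 0 < δ ∧ 0 < K ∧
    ∀ d : ℤ, d % 2 = 1 → ¬ (3 : ℤ) ∣ d → ∀ (Z : ℝ) (N : ℕ), K * |(d : ℝ)| ≤ Z → Z ≤ N →
      (∀ A : Set ℤ, (Set.ncard {x : ℤ | x ∈ A ∧ x ≠ 0 ∧ |(x : ℝ)| < Z} : ℝ) ≤ δ * Z →
        (Set.ncard {x : ℤ | x ≠ 0 ∧ |x| ≤ N ∧ ¬ ∃ k : ℕ, (T d)^[k] x ∉ A ∧
          |(((T d)^[k] x : ℤ) : ℝ)| < Z ∧ ∀ j < k, Z ≤ |(((T d)^[j] x : ℤ) : ℝ)|} : ℝ) ≤ ε * N) ∧
      (∀ F : Set ℤ,
        (Set.ncard {x : ℤ | x ≠ 0 ∧ |(x : ℝ)| < Z ∧ ¬ Meets d F x} : ℝ) ≤ δ * Z →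
        (Set.ncard {x : ℤ | x ≠ 0 ∧ |x| ≤ N ∧ ¬ Meets d F x} : ℝ) ≤ ε * N) ∧
      (∀ F : Set ℤ, (∀ x ∈ F, |(x : ℝ)| < Z) →
        (Set.ncard {x : ℤ | x ≠ 0 ∧ |(x : ℝ)| < Z ∧ Meets d F x} : ℝ) ≤ δ * Z →
        (Set.ncard {x : ℤ | x ≠ 0 ∧ |x| ≤ N ∧ Meets d F x} : ℝ) ≤ ε * N) := by
  obtain ⟨δ, K, hδ, hK, h⟩ := H998_TU.bothU hε
  refine ⟨δ, K, hδ, by linarith, fun d hd hd3 Z N hZ hZN =>
    ⟨fun A hA => h d hd hd3 (T d) (fun _ => rfl) Z N hZ hZN A hA, fun F h1 => ?_, fun F hF h1 => ?_⟩⟩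
  · have h2 := h d hd hd3 (T d) (fun _ => rfl) Z N hZ hZN {x : ℤ | ¬ Meets d F x} (by
      refine le_trans (le_of_eq ?_) h1
      congr 2
      ext a
      simp only [Set.mem_ofPred_eq]
      tauto)
    refine le_trans ?_ h2
    have hsub : {x : ℤ | x ≠ 0 ∧ |x| ≤ N ∧ ¬ Meets d F x}
        ⊆ {n : ℤ | n ≠ 0 ∧ |n| ≤ N ∧ ¬ ∃ k : ℕ, (T d)^[k] n ∉ {x : ℤ | ¬ Meets d F x} ∧
          |(((T d)^[k] n : ℤ) : ℝ)| < Z ∧ ∀ j < k, Z ≤ |(((T d)^[j] n : ℤ) : ℝ)|} := by
      rintro x ⟨h3, h4, h5⟩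
      refine ⟨h3, h4, ?_⟩
      rintro ⟨k, g1, _, _⟩
      simp only [Set.mem_ofPred_eq, not_not] at g1
      obtain ⟨j, hj⟩ := g1
      exact h5 ⟨j + k, by rw [Function.iterate_add_apply]; exact hj⟩
    exact_mod_cast Set.ncard_le_ncard hsub (fin_box N _)
  · have h2 := h d hd hd3 (T d) (fun _ => rfl) Z N hZ hZN {x : ℤ | Meets d F x} (by
      refine le_trans (le_of_eq ?_) h1
      congr 2
      ext a
      simp only [Set.mem_ofPred_eq]
      tauto)
    refine le_trans ?_ h2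
    have hsub : {x : ℤ | x ≠ 0 ∧ |x| ≤ N ∧ Meets d F x}
        ⊆ {n : ℤ | n ≠ 0 ∧ |n| ≤ N ∧ ¬ ∃ k : ℕ, (T d)^[k] n ∉ {x : ℤ | Meets d F x} ∧
          |(((T d)^[k] n : ℤ) : ℝ)| < Z ∧ ∀ j < k, Z ≤ |(((T d)^[j] n : ℤ) : ℝ)|} := by
      rintro x ⟨h3, h4, j, hj⟩
      refine ⟨h3, h4, ?_⟩
      rintro ⟨k, g1, _, g3⟩
      apply g1
      have hkj : k ≤ j := by
        by_contra hcon
        push Not at hcon
        have := g3 j hcon
        linarith [hF _ hj]
      refine ⟨j - k, ?_⟩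
      rw [← Function.iterate_add_apply, Nat.sub_add_cancel hkj]
      exact hj
    exact_mod_cast Set.ncard_le_ncard hsub (fin_box N _)

end Pool.Agent.Results.MP_d0d59f_nt.TransferUniformInD
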